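import Pool.Agent.helper87.X4.Spec

/-! Row CI of X4 (Baire). -/

set_option autoImplicit false

namespace Pool.Agent.X4

theorem CI : CI_stmt := by
  intro Γ _ _ _ _ X _ _ a ha hc hst
  let U : Subgroup Γ :=
    { carrier := {σ | a σ = a 1}
      one_mem' := rfl
      inv_mem' := by
        intro σ hσ
        have h1 : a (σ⁻¹ * 1) = a 1 := (hst σ 1).1 hσ
        rw [mul_one] at h1
        exact h1
      mul_mem' := by
        intro σ τ hσ hτ
        have h1 : a (σ⁻¹ * 1) = a 1 := (hst σ 1).1 hσ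
        rw [mul_one] at h1
        have h2 : a σ⁻¹ = a τ := h1.trans (Eq.symm hτ)
        have h3 : a (σ⁻¹⁻¹ * τ) = a 1 := (hst σ⁻¹ τ).1 h2
        rw [inv_inv] at h3
        exact h3 }
  have hmem : ∀ σ, σ ∈ U ↔ a σ = a 1 := fun σ => Iff.rfl
  refine ⟨U, ?_, hmem⟩
  have hcount : Countable (Set.range a) := hc.to_subtype
  have hcl : ∀ x : Set.range a, IsClosed (a ⁻¹' {(x : X)}) := fun x =>
    isClosed_singleton.preimage ha
  have hcov : (⋃ x : Set.range a, a ⁻¹' {(x : X)}) = Set.univ := by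
    apply Set.eq_univ_of_forall
    intro σ
    exact Set.mem_iUnion.2 ⟨⟨a σ, σ, rfl⟩, rfl⟩
  obtain ⟨x, σ₀, hσ₀⟩ := nonempty_interior_of_iUnion_of_closed hcl hcov
  have hx : a σ₀ = x := by
    have h := interior_subset hσ₀
    exact h
  have hopen : IsOpen ((fun τ : Γ => σ₀ * τ) ⁻¹' interior (a ⁻¹' {(x : X)})) :=
    isOpen_interior.preimage (continuous_const.mul continuous_id)
  have h1 : (1 : Γ) ∈ (fun τ : Γ => σ₀ * τ) ⁻¹' interior (a ⁻¹' {(x : X)}) := by
    show σ₀ * 1 ∈ interior (a ⁻¹' {(x : X)})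
    rw [mul_one]
    exact hσ₀
  have hsub : (fun τ : Γ => σ₀ * τ) ⁻¹' interior (a ⁻¹' {(x : X)}) ⊆ (U : Set Γ) := by
    intro τ hτ
    have h2 : a (σ₀ * τ) = x := by
      have hτ' : σ₀ * τ ∈ interior (a ⁻¹' {(x : X)}) := hτ
      have h := interior_subset hτ'
      exact h
    have h3 : a (σ₀⁻¹ * (σ₀ * τ)) = a 1 := (hst σ₀ (σ₀ * τ)).1 (hx.trans h2.symm)
    rw [inv_mul_cancel_left] at h3
    exact h3
  exact Subgroup.isOpen_of_mem_nhds U (Filter.mem_of_superset (hopen.mem_nhds h1) hsub)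

end Pool.Agent.X4
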