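import Pool.Agent.helper87.X4.Spec

/-! Row PR of X4 (the orthogonal projector onto the Lie algebra). -/

set_option autoImplicit false

namespace Pool.Agent.X4

open Matrix Pool.Agent.PL

theorem PR (hGB : GB_stmt) (hND : ND_stmt) : PR_stmt := by
  intro F _ _ N E D
  obtain ⟨h0, hadd, hsmul, _⟩ := hGB F N E D
  let W : Submodule ℚ (Matrix (Fin N) (Fin N) ℚ) :=
    { carrier := gD D
      zero_mem' := h0
      add_mem' := fun {X Y} hX hY => hadd X hX Y hY
      smul_mem' := fun c X hX => hsmul c X hX }
  have hW : ∀ X, X ∈ W ↔ X ∈ gD D := fun X => Iff.rfl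
  let B : LinearMap.BilinForm ℚ (Matrix (Fin N) (Fin N) ℚ) :=
    LinearMap.mk₂ ℚ (fun X Y => (X * Y).trace)
      (fun X X' Y => by rw [Matrix.add_mul, Matrix.trace_add])
      (fun c X Y => by rw [Matrix.smul_mul, Matrix.trace_smul])
      (fun X Y Y' => by rw [Matrix.mul_add, Matrix.trace_add])
      (fun c X Y => by rw [Matrix.mul_smul, Matrix.trace_smul])
  have hB : ∀ X Y, B X Y = (X * Y).trace := fun X Y => rfl
  have hrefl : B.IsRefl := by
    intro X Y h
    rw [hB] at h ⊢
    rw [Matrix.trace_mul_comm]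
    exact h
  have hcompl : IsCompl W (B.orthogonal W) := by
    rw [LinearMap.BilinForm.isCompl_orthogonal_iff_disjoint hrefl]
    rw [Submodule.disjoint_def]
    intro X hX hX'
    apply hND F N E D X hX
    intro Y hY
    have h1 : B Y X = 0 := (LinearMap.BilinForm.mem_orthogonal_iff.1 hX') Y hY
    rw [hB, Matrix.trace_mul_comm] at h1
    exact h1
  refine ⟨W.subtype.comp (W.projectionOnto _ hcompl), ?_, ?_, ?_⟩
  · intro X
    exact (W.projectionOnto _ hcompl X).2
  · intro X hX
    exact congrArg Subtype.val (Submodule.projectionOnto_apply_left hcompl ⟨X, hX⟩)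
  · intro X Y hY
    have h1 : X - W.subtype (W.projectionOnto _ hcompl X) ∈ B.orthogonal W := by
      rw [← Submodule.projectionOnto_apply_eq_zero_iff hcompl, map_sub, sub_eq_zero]
      exact (Submodule.projectionOnto_apply_left hcompl _).symm
    have h2 := (LinearMap.BilinForm.mem_orthogonal_iff.1 h1) Y hY
    have h3 : B Y (X - W.subtype (W.projectionOnto _ hcompl X)) = 0 := h2
    rw [hB, Matrix.trace_mul_comm] at h3
    exact h3

end Pool.Agent.X4
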